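import Mathlib

/-! Gallai's theorem: the vertices of a finite graph split into a set inducing a subgraph with all
degrees odd and a set inducing a subgraph with all degrees even. -/

set_option autoImplicit false

open Classical Finset

namespace Pool.Agent.J4.H25

/-- sums of symmetric arrays in characteristic two -/
theorem sum_symm_zmod2 {V : Type} [Fintype V] (a : V → V → ZMod 2) (h : ∀ i j, a i j = a j i) :
    ∑ i, ∑ j, a i j = ∑ i, a i i := by
  rw [← Finset.sum_product']
  have hsplit : (univ ×ˢ univ : Finset (V × V)) = univ.diag ∪ univ.offDiag := by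
    rw [Finset.diag_union_offDiag]
  rw [hsplit, Finset.sum_union (Finset.disjoint_diag_offDiag _), Finset.sum_diag]
  have : ∑ x ∈ (univ : Finset V).offDiag, a x.1 x.2 = 0 := by
    refine Finset.sum_involution (fun x _ => (x.2, x.1)) ?_ ?_ ?_ ?_
    · rintro ⟨i, j⟩ _
      simp only
      rw [h j i]
      exact CharTwo.add_self_eq_zero _
    · rintro ⟨i, j⟩ hx _ he
      rw [Finset.mem_offDiag] at hx
      exact hx.2.2 (congrArg Prod.fst he).symm
    · rintro ⟨i, j⟩ hx
      rw [Finset.mem_offDiag] at hx ⊢
      exact ⟨hx.2.1, hx.1, fun e => hx.2.2 e.symm⟩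
    · rintro ⟨i, j⟩ _
      rfl
  rw [this, add_zero]

/-- the diagonal of a symmetric matrix over the field with two elements lies in its range -/
theorem diag_mem_range {V : Type} [Fintype V] (N : V → V → ZMod 2) (h : ∀ i j, N i j = N j i) :
    ∃ x : V → ZMod 2, ∀ i, ∑ j, N i j * x j = N i i := by
  let L : (V → ZMod 2) →ₗ[ZMod 2] (V → ZMod 2) :=
    { toFun := fun x i => ∑ j, N i j * x j
      map_add' := by
        intro x y
        funext i
        simp only [Pi.add_apply, mul_add, sum_add_distrib]
      map_smul' := by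
        intro c x
        funext i
        simp only [Pi.smul_apply, smul_eq_mul, RingHom.id_apply, mul_sum]
        exact sum_congr rfl fun j _ => by ring }
  suffices hd : (fun i => N i i) ∈ LinearMap.range L by
    obtain ⟨x, hx⟩ := hd
    exact ⟨x, fun i => congrFun hx i⟩
  by_contra hcon
  obtain ⟨f, hf1, hf2⟩ := Submodule.exists_dual_map_eq_bot_of_notMem hcon inferInstance
  let z : V → ZMod 2 := fun i => f (Pi.single i 1)
  have hfz : ∀ x : V → ZMod 2, f x = ∑ i, z i * x i := by
    intro x
    conv_lhs => rw [pi_eq_sum_univ x]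
    rw [map_sum]
    refine sum_congr rfl fun i _ => ?_
    rw [map_smul, smul_eq_mul, mul_comm]
    congr 2
    funext j
    by_cases hij : i = j
    · subst hij; simp
    · rw [if_neg hij, Pi.single_eq_of_ne (fun e => hij e.symm)]
  have h0 : ∀ x : V → ZMod 2, f (L x) = 0 := by
    intro x
    have : f (L x) ∈ (LinearMap.range L).map f := Submodule.mem_map_of_mem ⟨x, rfl⟩
    rw [hf2] at this
    exact (Submodule.mem_bot _).1 this
  apply hf1
  rw [hfz]
  have h1 := h0 z
  rw [hfz] at h1
  simp only [L, LinearMap.coe_mk, AddHom.coe_mk, mul_sum] at h1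
  have h2 := sum_symm_zmod2 (fun i j => z i * (N i j * z j)) (fun i j => by rw [h i j]; ring)
  rw [h1] at h2
  have h3 : ∀ c : ZMod 2, c * c = c := by decide
  calc ∑ i, z i * N i i = ∑ i, z i * (N i i * z i) := by
        refine sum_congr rfl fun i _ => ?_
        have := h3 (z i)
        calc z i * N i i = (z i * z i) * N i i := by rw [this]
          _ = _ := by ring
    _ = 0 := h2.symm

/-- **Gallai's theorem.** -/
theorem gallai {V : Type} [Fintype V] (G : SimpleGraph V) (U : Finset V) :
    ∃ S ⊆ U, (∀ v ∈ S, Odd (S.filter fun w => G.Adj v w).card) ∧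
      ∀ v ∈ U \ S, Even ((U \ S).filter fun w => G.Adj v w).card := by
  -- the degree inside `U`
  let D : V → ZMod 2 := fun v => ((U.filter fun w => G.Adj v w).card : ZMod 2)
  let N : V → V → ZMod 2 := fun i j =>
    if i = j then (if i ∈ U then D i + 1 else 0) else if i ∈ U ∧ j ∈ U ∧ G.Adj i j then 1 else 0
  have hN : ∀ i j, N i j = N j i := by
    intro i j
    by_cases hij : i = j
    · subst hij; rfl
    · simp only [N, if_neg hij, if_neg (fun e => hij e.symm : ¬ j = i), G.adj_comm i j]
      congr 1
      exact propext ⟨fun ⟨a, b, c⟩ => ⟨b, a, c⟩, fun ⟨a, b, c⟩ => ⟨b, a, c⟩⟩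
  obtain ⟨x, hx⟩ := diag_mem_range N hN
  -- the sum over the neighbours
  have hrow : ∀ y : V → ZMod 2, ∀ i ∈ U, ∑ j, N i j * y j =
      (D i + 1) * y i + ∑ j ∈ U.filter (fun w => G.Adj i w), y j := by
    intro y i hi
    have h1 : ∀ j, N i j * y j = (if i = j then (D i + 1) * y j else 0) +
        (if j ∈ U.filter (fun w => G.Adj i w) then y j else 0) := by
      intro j
      by_cases hij : i = j
      · subst hij
        simp [N, hi]
      · simp only [N, if_neg hij, mem_filter, hi, true_and]
        split_ifs <;> simp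
    rw [sum_congr rfl fun j _ => h1 j, sum_add_distrib, Finset.sum_ite_eq, if_pos (mem_univ _),
      Finset.sum_ite_mem, Finset.univ_inter]
  let X : V → ZMod 2 := fun i => x i + 1
  have hX : ∀ i ∈ U, (D i + 1) * X i + ∑ j ∈ U.filter (fun w => G.Adj i w), X j = D i := by
    intro i hi
    have h1 := hrow x i hi
    rw [hx i] at h1
    have h2 : N i i = D i + 1 := by simp [N, hi]
    rw [h2] at h1
    simp only [X]
    rw [sum_add_distrib, mul_add, mul_one]
    have h3 : ∑ j ∈ U.filter (fun w => G.Adj i w), (1 : ZMod 2) = D i := by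
      simp [D]
    rw [h3]
    have h4 : D i + D i = 0 := CharTwo.add_self_eq_zero _
    have h5 : (1 : ZMod 2) + 1 = 0 := by decide
    linear_combination -h1 + h4 + h5
  refine ⟨U.filter fun v => X v = 1, filter_subset _ _, ?_, ?_⟩
  · intro v hv
    obtain ⟨hvU, hv1⟩ := mem_filter.1 hv
    have h1 := hX v hvU
    rw [hv1] at h1
    have h2 : ((((U.filter fun v => X v = 1).filter fun w => G.Adj v w).card : ℕ) : ZMod 2) =
        ∑ j ∈ U.filter (fun w => G.Adj v w), X j := by
      rw [Finset.card_eq_sum_ones, Nat.cast_sum, Finset.filter_filter, Finset.sum_filter,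
        Finset.sum_filter]
      refine sum_congr rfl fun j _ => ?_
      have h3 : ∀ c : ZMod 2, c = 0 ∨ c = 1 := by decide
      rcases h3 (X j) with h4 | h4 <;> simp [h4]
    have h5 : ((((U.filter fun v => X v = 1).filter fun w => G.Adj v w).card : ℕ) : ZMod 2) = 1 := by
      rw [h2]
      have h6 : (1 : ZMod 2) + 1 = 0 := by decide
      linear_combination h1 - h6
    rw [← Nat.not_even_iff_odd]
    intro he
    rw [(ZMod.natCast_eq_zero_iff_even).2 he] at h5
    exact absurd h5 (by decide)
  · intro v hv
    obtain ⟨hvU, hv1⟩ := mem_sdiff.1 hv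
    have h3 : ∀ c : ZMod 2, c = 0 ∨ c = 1 := by decide
    have hv0 : X v = 0 := by
      rcases h3 (X v) with h4 | h4
      · exact h4
      · exact absurd (mem_filter.2 ⟨hvU, h4⟩) hv1
    have h1 := hX v hvU
    rw [hv0, mul_zero, zero_add] at h1
    have h2 : ((((U \ U.filter fun v => X v = 1).filter fun w => G.Adj v w).card : ℕ) : ZMod 2) =
        ∑ j ∈ U.filter (fun w => G.Adj v w), (1 - X j) := by
      have e : U \ U.filter (fun v => X v = 1) = U.filter fun v => ¬ X v = 1 := by
        ext w
        simp only [mem_sdiff, mem_filter]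
        tauto
      rw [e, Finset.card_eq_sum_ones, Nat.cast_sum, Finset.filter_filter, Finset.sum_filter,
        Finset.sum_filter]
      refine sum_congr rfl fun j _ => ?_
      rcases h3 (X j) with h4 | h4 <;> simp [h4]
    have h5 : ((((U \ U.filter fun v => X v = 1).filter fun w => G.Adj v w).card : ℕ) : ZMod 2) = 0 := by
      rw [h2, sum_sub_distrib, h1]
      have h6 : ∑ j ∈ U.filter (fun w => G.Adj v w), (1 : ZMod 2) = D v := by simp [D]
      rw [h6, sub_self]
    exact (ZMod.natCast_eq_zero_iff_even).1 h5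

end Pool.Agent.J4.H25
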