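import Pool.Agent.J4.H25.Seins
import Pool.Agent.J4.H25.Gallai

/-! Odd induced subgraphs of cographs without isolated vertices. -/

set_option autoImplicit false

open Classical Finset

namespace Pool.Agent.J4.H25

variable {V : Type}

/-- the set `S` induces a subgraph with all degrees odd -/
def OddSet (G : SimpleGraph V) (S : Finset V) : Prop :=
  ∀ v ∈ S, Odd (S.filter fun w => G.Adj v w).card

/-- the set `S` induces a subgraph with all degrees even -/
def EvenSet (G : SimpleGraph V) (S : Finset V) : Prop :=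
  ∀ v ∈ S, Even (S.filter fun w => G.Adj v w).card

/-- an odd set has an even number of elements -/
theorem OddSet.even_card {G : SimpleGraph V} {S : Finset V} (h : OddSet G S) : Even S.card := by
  have h1 : ∀ v ∈ S, ((S.filter fun w => G.Adj v w).card : ZMod 2) = 1 := by
    intro v hv
    exact (ZMod.natCast_eq_one_iff_odd).2 (h v hv)
  have h2 : (S.card : ZMod 2) = ∑ v ∈ S, ∑ w ∈ S, if G.Adj v w then (1 : ZMod 2) else 0 := by
    rw [Finset.card_eq_sum_ones, Nat.cast_sum]
    refine sum_congr rfl fun v hv => ?_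
    rw [Finset.sum_boole, h1 v hv, Nat.cast_one]
  have h3 := sum_symm_zmod2 (V := S) (fun v w => if G.Adj v w then (1 : ZMod 2) else 0)
    (fun v w => by rw [G.adj_comm])
  rw [← Finset.sum_coe_sort S] at h2
  have h4 : ∀ v : S, ∑ w ∈ S, (if G.Adj v w then (1 : ZMod 2) else 0) =
      ∑ w : S, if G.Adj v w then (1 : ZMod 2) else 0 := fun v => (Finset.sum_coe_sort S _).symm
  rw [sum_congr rfl fun v _ => h4 v, h3] at h2
  simp only [SimpleGraph.irrefl, if_false, sum_const_zero] at h2
  exact (ZMod.natCast_eq_zero_iff_even).1 h2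

/-- in every nonempty set there are an odd set and an even set of odd order, which have together at
least all but one of the elements -/
theorem exists_odd_even [Fintype V] (G : SimpleGraph V) {U : Finset V} (hU : U.Nonempty) :
    ∃ S ⊆ U, ∃ E ⊆ U, OddSet G S ∧ EvenSet G E ∧ Odd E.card ∧ U.card ≤ S.card + E.card + 1 := by
  have main : ∀ W ⊆ U, Odd W.card → U.card ≤ W.card + 1 →
      ∃ S ⊆ U, ∃ E ⊆ U, OddSet G S ∧ EvenSet G E ∧ Odd E.card ∧ U.card ≤ S.card + E.card + 1 := by
    intro W hWU hW hc
    obtain ⟨S, hS, h1, h2⟩ := gallai G W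
    have h3 : OddSet G S := h1
    have h4 := h3.even_card
    have h5 := Finset.card_sdiff_add_card_eq_card hS
    refine ⟨S, hS.trans hWU, W \ S, sdiff_subset.trans hWU, h1, h2, ?_, by omega⟩
    rw [← Nat.not_even_iff_odd] at hW ⊢
    intro h6
    apply hW
    rw [← h5]
    exact h6.add h4
  rcases Nat.even_or_odd U.card with he | ho
  · obtain ⟨v, hv⟩ := hU
    have h1 := Finset.card_erase_of_mem hv
    have h2 : 0 < U.card := card_pos.2 ⟨v, hv⟩
    refine main (U.erase v) (erase_subset _ _) ?_ (by omega)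
    rw [h1]
    obtain ⟨k, hk⟩ := he
    exact ⟨k - 1, by omega⟩
  · exact main U (Subset.refl _) ho (by omega)

/-- the join of two odd sets, or of two even sets of odd order, is odd -/
theorem join_odd {G : SimpleGraph V} {A B : Finset V} (hAB : Disjoint A B)
    (hj : ∀ a ∈ A, ∀ b ∈ B, G.Adj a b)
    (h : (OddSet G A ∧ OddSet G B) ∨ (EvenSet G A ∧ Odd A.card ∧ EvenSet G B ∧ Odd B.card)) :
    OddSet G (A ∪ B) := by
  have key : ∀ A B : Finset V, Disjoint A B → (∀ a ∈ A, ∀ b ∈ B, G.Adj a b) →
      ((OddSet G A ∧ OddSet G B) ∨ (EvenSet G A ∧ Odd A.card ∧ EvenSet G B ∧ Odd B.card)) →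
      ∀ v ∈ A, Odd ((A ∪ B).filter fun w => G.Adj v w).card := by
    intro A B hAB hj h v hv
    have h1 : (A ∪ B).filter (fun w => G.Adj v w) = A.filter (fun w => G.Adj v w) ∪ B := by
      rw [filter_union]
      congr 1
      exact filter_true_of_mem fun w hw => hj v hv w hw
    rw [h1, card_union_of_disjoint (disjoint_of_subset_left (filter_subset _ _) hAB)]
    rcases h with ⟨hA, hB⟩ | ⟨hA, _, _, hB⟩
    · exact (hA v hv).add_even hB.even_card
    · exact (hA v hv).add_odd hB
  intro v hv
  rcases mem_union.1 hv with hv | hv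
  · exact key A B hAB hj h v hv
  · rw [union_comm]
    refine key B A hAB.symm (fun b hb a ha => (hj a ha b hb).symm) ?_ v hv
    rcases h with ⟨hA, hB⟩ | ⟨hA, hA', hB, hB'⟩
    · exact Or.inl ⟨hB, hA⟩
    · exact Or.inr ⟨hB, hB', hA, hA'⟩

/-- the union of two odd sets without edges between them is odd -/
theorem union_odd {G : SimpleGraph V} {A B : Finset V}
    (hj : ∀ a ∈ A, ∀ b ∈ B, ¬ G.Adj a b) (hA : OddSet G A) (hB : OddSet G B) :
    OddSet G (A ∪ B) := by
  have key : ∀ A B : Finset V, (∀ a ∈ A, ∀ b ∈ B, ¬ G.Adj a b) → OddSet G A →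
      ∀ v ∈ A, Odd ((A ∪ B).filter fun w => G.Adj v w).card := by
    intro A B hj hA v hv
    have h1 : (A ∪ B).filter (fun w => G.Adj v w) = A.filter (fun w => G.Adj v w) := by
      rw [filter_union]
      have : B.filter (fun w => G.Adj v w) = ∅ := filter_false_of_mem fun w hw => hj v hv w hw
      rw [this, union_empty]
    rw [h1]
    exact hA v hv
  intro v hv
  rcases mem_union.1 hv with hv | hv
  · exact key A B hj hA v hv
  · rw [union_comm]
    exact key B A (fun b hb a ha h => hj a ha b hb h.symm) hB v hv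

/-- a set with a join contains an odd set with a third of the vertices -/
theorem third_of_join [Fintype V] {G : SimpleGraph V} {U X : Finset V} (hX : X ⊆ U)
    (h1 : X.Nonempty) (h2 : (U \ X).Nonempty) (hj : ∀ a ∈ X, ∀ b ∈ U \ X, G.Adj a b) :
    ∃ T ⊆ U, OddSet G T ∧ U.card ≤ 3 * T.card := by
  have hcard := Finset.card_sdiff_add_card_eq_card hX
  rcases Nat.lt_or_ge U.card 7 with h6 | h7
  · obtain ⟨a, ha⟩ := h1
    obtain ⟨b, hb⟩ := h2
    have hab := hj a ha b hb
    refine ⟨{a, b}, ?_, ?_, ?_⟩
    · intro v hv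
      rcases mem_insert.1 hv with rfl | hv
      · exact hX ha
      · rw [mem_singleton.1 hv]
        exact (mem_sdiff.1 hb).1
    · intro v hv
      rcases mem_insert.1 hv with rfl | hv
      · have : ({v, b} : Finset V).filter (fun w => G.Adj v w) = {b} := by
          ext w
          simp only [mem_filter, mem_insert, mem_singleton]
          constructor
          · rintro ⟨rfl | rfl, h⟩
            · exact absurd h G.irrefl
            · rfl
          · rintro rfl
            exact ⟨Or.inr rfl, hab⟩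
        rw [this, card_singleton]
        exact odd_one
      · rw [mem_singleton.1 hv]
        have : ({a, b} : Finset V).filter (fun w => G.Adj b w) = {a} := by
          ext w
          simp only [mem_filter, mem_insert, mem_singleton]
          constructor
          · rintro ⟨rfl | rfl, h⟩
            · rfl
            · exact absurd h G.irrefl
          · rintro rfl
            exact ⟨Or.inl rfl, hab.symm⟩
        rw [this, card_singleton]
        exact odd_one
    · rw [card_pair (fun e => by rw [e] at hab; exact absurd hab G.irrefl)]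
      omega
  · obtain ⟨S1, hS1, E1, hE1, o1, e1, c1, n1⟩ := exists_odd_even G h1
    obtain ⟨S2, hS2, E2, hE2, o2, e2, c2, n2⟩ := exists_odd_even G h2
    have hdis : Disjoint X (U \ X) := disjoint_sdiff
    have dS : Disjoint S1 S2 := disjoint_of_subset_left hS1 (disjoint_of_subset_right hS2 hdis)
    have dE : Disjoint E1 E2 := disjoint_of_subset_left hE1 (disjoint_of_subset_right hE2 hdis)
    have oS : OddSet G (S1 ∪ S2) := join_odd dS (fun a ha b hb => hj a (hS1 ha) b (hS2 hb))
      (Or.inl ⟨o1, o2⟩)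
    have oE : OddSet G (E1 ∪ E2) := join_odd dE (fun a ha b hb => hj a (hE1 ha) b (hE2 hb))
      (Or.inr ⟨e1, c1, e2, c2⟩)
    have cS := card_union_of_disjoint dS
    have cE := card_union_of_disjoint dE
    obtain ⟨s, hs⟩ := oS.even_card
    obtain ⟨t, ht⟩ := oE.even_card
    rcases le_total (E1 ∪ E2).card (S1 ∪ S2).card with hle | hle
    · refine ⟨S1 ∪ S2, union_subset (hS1.trans hX) (hS2.trans sdiff_subset), oS, ?_⟩
      omega
    · refine ⟨E1 ∪ E2, union_subset (hE1.trans hX) (hE2.trans sdiff_subset), oE, ?_⟩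
      omega

/-- **the lower bound** -/
theorem lower [Fintype V] {G : SimpleGraph V} : ∀ (k : ℕ) (U : Finset V), U.card ≤ k → NoP4 G U →
    (∀ v ∈ U, ∃ w ∈ U, G.Adj v w) → ∃ T ⊆ U, OddSet G T ∧ U.card ≤ 3 * T.card := by
  intro k
  induction k with
  | zero =>
    intro U hU _ _
    refine ⟨∅, empty_subset _, fun v hv => absurd hv (notMem_empty v), by omega⟩
  | succ k ih =>
    intro U hU hP hiso
    rcases U.eq_empty_or_nonempty with rfl | hne
    · exact ⟨∅, empty_subset _, fun v hv => absurd hv (notMem_empty v), by simp⟩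
    · obtain ⟨v, hv⟩ := hne
      obtain ⟨w, hw, hvw⟩ := hiso v hv
      have h2 : 2 ≤ U.card := by
        have : ({v, w} : Finset V) ⊆ U := by
          intro x hx
          rcases mem_insert.1 hx with rfl | hx
          · exact hv
          · rw [mem_singleton.1 hx]; exact hw
        have h3 := card_le_card this
        rwa [card_pair (fun e => by rw [e] at hvw; exact absurd hvw G.irrefl)] at h3
      rcases Seins.seinsche h2 hP with hc | hc
      · unfold Conn at hc
        push Not at hc
        obtain ⟨X, hXU, hX1, hX2, hX3⟩ := hc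
        have hYne : (U \ X).Nonempty := by
          rw [sdiff_nonempty]
          exact fun h => hX2 (Subset.antisymm hXU h)
        have hcard := Finset.card_sdiff_add_card_eq_card hXU
        have c1 := card_pos.2 hX1
        have c2 := card_pos.2 hYne
        have hmono : ∀ W ⊆ U, NoP4 G W := fun W hW a ha b hb c hc d hd =>
          hP a (hW ha) b (hW hb) c (hW hc) d (hW hd)
        obtain ⟨T1, hT1, o1, k1⟩ := ih X (by omega) (hmono X hXU) (fun v hv => by
          obtain ⟨w, hw, h⟩ := hiso v (hXU hv)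
          refine ⟨w, ?_, h⟩
          by_contra hwX
          exact hX3 v hv w (mem_sdiff.2 ⟨hw, hwX⟩) h)
        obtain ⟨T2, hT2, o2, k2⟩ := ih (U \ X) (by omega) (hmono _ sdiff_subset) (fun v hv => by
          obtain ⟨w, hw, h⟩ := hiso v (mem_sdiff.1 hv).1
          refine ⟨w, mem_sdiff.2 ⟨hw, fun hwX => ?_⟩, h⟩
          exact hX3 w hwX v hv h.symm)
        have hd : Disjoint T1 T2 :=
          disjoint_of_subset_left hT1 (disjoint_of_subset_right hT2 disjoint_sdiff)
        refine ⟨T1 ∪ T2, union_subset (hT1.trans hXU) (hT2.trans sdiff_subset),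
          union_odd (fun a ha b hb => hX3 a (hT1 ha) b (hT2 hb)) o1 o2, ?_⟩
        rw [card_union_of_disjoint hd]
        omega
      · unfold Conn at hc
        push Not at hc
        obtain ⟨X, hXU, hX1, hX2, hX3⟩ := hc
        have hYne : (U \ X).Nonempty := by
          rw [sdiff_nonempty]
          exact fun h => hX2 (Subset.antisymm hXU h)
        refine third_of_join hXU hX1 hYne fun a ha b hb => ?_
        by_contra h
        refine hX3 a ha b hb ?_
        rw [SimpleGraph.compl_adj]
        refine ⟨?_, h⟩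
        rintro rfl
        exact (mem_sdiff.1 hb).2 ha

/-- The extremal graph on `n` vertices: `q` components, the components being complete tripartite
graphs with parts of size at most two. -/
def ext (n q : ℕ) : SimpleGraph (Fin n) where
  Adj i j := (i : ℕ) % q = (j : ℕ) % q ∧ ((i : ℕ) / q) % 3 ≠ ((j : ℕ) / q) % 3
  symm := ⟨fun _ _ h => ⟨h.1.symm, fun e => h.2 e.symm⟩⟩
  loopless := ⟨fun _ h => h.2 rfl⟩

theorem ext_noP4 (n q : ℕ) : ∀ a b c d : Fin n, (ext n q).Adj a b → (ext n q).Adj b c →
    (ext n q).Adj c d → ¬ (ext n q).Adj a c → ¬ (ext n q).Adj a d → ¬ (ext n q).Adj b d → False := by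
  intro a b c d h1 h2 h3 h4 h5 h6
  simp only [ext] at h1 h2 h3 h4 h5 h6
  have e1 : (a : ℕ) / q % 3 = (c : ℕ) / q % 3 := by
    by_contra h
    exact h4 ⟨h1.1.trans h2.1, h⟩
  have e2 : (a : ℕ) / q % 3 = (d : ℕ) / q % 3 := by
    by_contra h
    exact h5 ⟨(h1.1.trans h2.1).trans h3.1, h⟩
  exact h3.2 (e1.symm.trans e2)

theorem ext_iso {n q : ℕ} (hq : 0 < q) (h : 2 * q ≤ n) (i : Fin n) : ∃ j, (ext n q).Adj i j := by
  rcases Nat.eq_zero_or_pos ((i : ℕ) / q) with h0 | h0
  · have hi : (i : ℕ) < q := (Nat.div_eq_zero_iff_lt hq).1 h0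
    refine ⟨⟨(i : ℕ) + q, by omega⟩, ?_, ?_⟩
    · simp
    · rw [h0, Nat.add_div_right _ hq, h0]
      decide
  · have hi : q ≤ (i : ℕ) := by
      by_contra hcon
      push Not at hcon
      rw [Nat.div_eq_of_lt hcon] at h0
      exact absurd h0 (lt_irrefl _)
    refine ⟨⟨(i : ℕ) - q, by omega⟩, ?_, ?_⟩
    · show (i : ℕ) % q = ((i : ℕ) - q) % q
      conv_lhs => rw [← Nat.sub_add_cancel hi]
      rw [Nat.add_mod_right]
    · show (i : ℕ) / q % 3 ≠ ((i : ℕ) - q) / q % 3
      have : (i : ℕ) / q = ((i : ℕ) - q) / q + 1 := by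
        conv_lhs => rw [← Nat.sub_add_cancel hi]
        rw [Nat.add_div_right _ hq]
      omega

theorem ext_upper {n q : ℕ} (hq : 0 < q) (h : n ≤ 6 * q) {T : Finset (Fin n)}
    (hT : OddSet (ext n q) T) : T.card ≤ 2 * q := by
  -- the part `c` of the component `b`
  let P : ℕ → ℕ → Finset (Fin n) := fun b c =>
    T.filter fun i => (i : ℕ) % q = b ∧ ((i : ℕ) / q) % 3 = c
  let Bk : ℕ → Finset (Fin n) := fun b => T.filter fun i => (i : ℕ) % q = b
  have hP2 : ∀ b c, (P b c).card ≤ 2 := by
    intro b c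
    have h1 : ((P b c).image fun i : Fin n => (i : ℕ) / q).card = (P b c).card := by
      apply card_image_of_injOn
      intro i hi j hj hij
      rw [mem_coe, mem_filter] at hi hj
      simp only at hij
      apply Fin.ext
      rw [← Nat.div_add_mod (i : ℕ) q, ← Nat.div_add_mod (j : ℕ) q, hij, hi.2.1, hj.2.1]
    have h2 : ((P b c).image fun i : Fin n => (i : ℕ) / q) ⊆ {c, c + 3} := by
      intro x hx
      obtain ⟨i, hi, rfl⟩ := mem_image.1 hx
      obtain ⟨_, _, hi3⟩ := mem_filter.1 hi
      have h3 : (i : ℕ) / q < 6 := by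
        rw [Nat.div_lt_iff_lt_mul hq]
        omega
      rw [mem_insert, mem_singleton]
      generalize (i : ℕ) / q = y at hi3 h3
      omega
    rw [← h1]
    exact (card_le_card h2).trans card_le_two
  have hB : ∀ b, (Bk b).card = (P b 0).card + (P b 1).card + (P b 2).card := by
    intro b
    have : Bk b = P b 0 ∪ P b 1 ∪ P b 2 := by
      ext i
      simp only [Bk, P, mem_union, mem_filter]
      constructor
      · rintro ⟨h1, h2⟩
        have : (i : ℕ) / q % 3 < 3 := Nat.mod_lt _ (by norm_num)
        rcases (by omega : (i : ℕ) / q % 3 = 0 ∨ (i : ℕ) / q % 3 = 1 ∨ (i : ℕ) / q % 3 = 2) with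
          h3 | h3 | h3
        · exact Or.inl (Or.inl ⟨h1, h2, h3⟩)
        · exact Or.inl (Or.inr ⟨h1, h2, h3⟩)
        · exact Or.inr ⟨h1, h2, h3⟩
      · rintro ((⟨h1, h2, _⟩ | ⟨h1, h2, _⟩) | ⟨h1, h2, _⟩) <;> exact ⟨h1, h2⟩
    rw [this, card_union_of_disjoint, card_union_of_disjoint]
    · rw [disjoint_left]
      intro i h1 h2
      have := (mem_filter.1 h1).2.2
      have := (mem_filter.1 h2).2.2
      omega
    · rw [disjoint_left]
      intro i h1 h2
      have h3 := (mem_filter.1 h2).2.2
      rcases mem_union.1 h1 with h1 | h1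
      · have := (mem_filter.1 h1).2.2
        omega
      · have := (mem_filter.1 h1).2.2
        omega
  have hodd : ∀ b c, (P b c).Nonempty → Odd ((Bk b).card - (P b c).card) := by
    intro b c ⟨i, hi⟩
    obtain ⟨hiT, hi1, hi2⟩ := mem_filter.1 hi
    have h1 := hT i hiT
    have h2 : T.filter (fun w => (ext n q).Adj i w) = Bk b \ P b c := by
      ext j
      simp only [ext, Bk, P, mem_sdiff, mem_filter, hi1, hi2]
      constructor
      · rintro ⟨h3, h4, h5⟩
        exact ⟨⟨h3, h4.symm⟩, fun h6 => h5 h6.2.2.symm⟩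
      · rintro ⟨⟨h3, h4⟩, h5⟩
        exact ⟨h3, h4.symm, fun h6 => h5 ⟨h3, h4, h6.symm⟩⟩
    rw [h2, card_sdiff_of_subset (by
      intro j hj
      obtain ⟨h3, h4, _⟩ := mem_filter.1 hj
      exact mem_filter.2 ⟨h3, h4⟩)] at h1
    exact h1
  have hB2 : ∀ b, (Bk b).card ≤ 2 := by
    intro b
    have k0 := hP2 b 0
    have k1 := hP2 b 1
    have k2 := hP2 b 2
    have e := hB b
    have o : ∀ c, (P b c).card = 0 ∨ Odd ((Bk b).card - (P b c).card) := by
      intro c
      rcases (P b c).eq_empty_or_nonempty with h0 | h0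
      · left; rw [h0, card_empty]
      · right; exact hodd b c h0
    have o0 := o 0
    have o1 := o 1
    have o2 := o 2
    rw [Nat.odd_iff] at o0 o1 o2
    omega
  have hcover : T = (range q).biUnion Bk := by
    ext i
    simp only [mem_biUnion, mem_range, Bk, mem_filter]
    constructor
    · intro hi
      exact ⟨(i : ℕ) % q, Nat.mod_lt _ hq, hi, rfl⟩
    · rintro ⟨_, _, hi, _⟩
      exact hi
  calc T.card = ((range q).biUnion Bk).card := by rw [← hcover]
    _ ≤ ∑ b ∈ range q, (Bk b).card := card_biUnion_le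
    _ ≤ ∑ _b ∈ range q, 2 := sum_le_sum fun b _ => hB2 b
    _ = 2 * q := by rw [sum_const, card_range, smul_eq_mul, mul_comm]

end Pool.Agent.J4.H25
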