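import Mathlib

/-! Seinsche's theorem for finite sets of vertices. -/

set_option autoImplicit false

open Classical SimpleGraph

namespace Pool.Agent.J4.H25

/-- the subgraph on `S` is connected -/
def Conn {V : Type} (G : SimpleGraph V) (S : Finset V) : Prop :=
  ∀ X ⊆ S, X.Nonempty → X ≠ S → ∃ u ∈ X, ∃ v ∈ S \ X, G.Adj u v

/-- no induced path on four vertices inside `S` -/
def NoP4 {V : Type} (G : SimpleGraph V) (S : Finset V) : Prop :=
  ∀ a ∈ S, ∀ b ∈ S, ∀ c ∈ S, ∀ d ∈ S,
  G.Adj a b → G.Adj b c → G.Adj c d → ¬G.Adj a c → ¬G.Adj a d → ¬G.Adj b d → a ≠ c → b ≠ d → False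

namespace Seins

variable {V : Type} {G : SimpleGraph V} {S T : Finset V} {k l : ℕ}

theorem _root_.Pool.Agent.J4.H25.NoP4.compl (h : NoP4 G S) : NoP4 Gᶜ S := by
  intro a ha b hb c hc d hd hab hbc hcd hac had hbd nac nbd
  rw [compl_adj] at hab hbc hcd hac had hbd
  have h1 : G.Adj a c := by
    by_contra hh; exact hac ⟨nac, hh⟩
  have h2 : G.Adj b d := by
    by_contra hh; exact hbd ⟨nbd, hh⟩
  have h3 : G.Adj a d := by
    by_contra hh
    apply had
    refine ⟨?_, hh⟩
    rintro rfl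
    exact hab.2 h2.symm
  exact h b hb d hd a ha c hc h2 h3.symm h1 (fun hh => hab.2 hh.symm) hbc.2 (fun hh => hcd.2 hh.symm)
    (fun e => hab.1 e.symm) (fun e => hcd.1 e.symm)

theorem step_aux (v : V) (hv : v ∈ S) (X Y : Finset V) (hXY : X ∪ Y = S.erase v) (hdis : Disjoint X Y)
    (hno : ∀ x ∈ X, ∀ y ∈ Y, ¬G.Adj x y) (hY : Y.Nonempty) (n : V) (hn : n ∈ X) (hvn : ¬G.Adj v n)
    (hc : Conn G S) (h : NoP4 G S) : False := by
  have hXS : ∀ x ∈ X, x ∈ S ∧ x ≠ v := by
    intro x hx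
    have : x ∈ S.erase v := by rw [← hXY]; exact Finset.mem_union_left _ hx
    exact ⟨Finset.mem_of_mem_erase this, Finset.ne_of_mem_erase this⟩
  have hYS : ∀ x ∈ Y, x ∈ S ∧ x ≠ v := by
    intro x hx
    have : x ∈ S.erase v := by rw [← hXY]; exact Finset.mem_union_right _ hx
    exact ⟨Finset.mem_of_mem_erase this, Finset.ne_of_mem_erase this⟩
  obtain ⟨x, hx, w, hw, hxw⟩ := hc (X.filter (fun x => ¬G.Adj v x))
    (fun x hx => (hXS x (Finset.mem_filter.1 hx).1).1) ⟨n, Finset.mem_filter.2 ⟨hn, hvn⟩⟩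
    (fun e => by
      have : v ∈ X.filter (fun x => ¬G.Adj v x) := by rw [e]; exact hv
      exact (hXS v (Finset.mem_filter.1 this).1).2 rfl)
  obtain ⟨hxX, hvx⟩ := Finset.mem_filter.1 hx
  obtain ⟨hwS, hwN⟩ := Finset.mem_sdiff.1 hw
  have hwv : w ≠ v := by
    rintro rfl
    exact hvx hxw.symm
  have hwXY : w ∈ X ∪ Y := by rw [hXY]; exact Finset.mem_erase.2 ⟨hwv, hwS⟩
  have hwX : w ∈ X := by
    rcases Finset.mem_union.1 hwXY with h1 | h1
    · exact h1
    · exact absurd hxw (hno x hxX w h1)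
  have hvw : G.Adj v w := by
    by_contra hh
    exact hwN (Finset.mem_filter.2 ⟨hwX, hh⟩)
  obtain ⟨y, hy, z, hz, hyz⟩ := hc Y (fun y hy => (hYS y hy).1) hY
    (fun e => (hYS v (by rw [e]; exact hv)).2 rfl)
  obtain ⟨hzS, hzY⟩ := Finset.mem_sdiff.1 hz
  have hzv : z = v := by
    by_contra hne
    have : z ∈ X ∪ Y := by rw [hXY]; exact Finset.mem_erase.2 ⟨hne, hzS⟩
    rcases Finset.mem_union.1 this with h1 | h1
    · exact hno z h1 y hy hyz.symm
    · exact hzY h1
  subst hzv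
  exact h y (hYS y hy).1 z hv w hwS x (hXS x hxX).1 hyz hvw hxw.symm
    (fun hh => hno w hwX y hy hh.symm) (fun hh => hno x hxX y hy hh.symm) hvx
    (fun e => Finset.disjoint_left.1 hdis hwX (e ▸ hy)) (fun e => (hXS x hxX).2 e.symm)

theorem step (v : V) (hv : v ∈ S) (hd : ¬Conn G (S.erase v)) (h : NoP4 G S) (hne : (S.erase v).Nonempty) :
    ¬Conn G S ∨ ¬Conn Gᶜ S := by
  by_contra hcon
  push Not at hcon
  obtain ⟨hc, hc'⟩ := hcon
  unfold Conn at hd
  push Not at hd
  obtain ⟨X, hXS, hXne, hXS', hno⟩ := hd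
  obtain ⟨u, hu, n, hn, hun⟩ := hc' {v} (by simpa using hv) (Finset.singleton_nonempty v) (fun e => by
    obtain ⟨w, hw⟩ := hne
    have h1 := Finset.mem_of_mem_erase hw
    rw [← e] at h1
    exact Finset.ne_of_mem_erase hw (Finset.mem_singleton.1 h1))
  rw [Finset.mem_singleton.1 hu] at hun
  obtain ⟨hnS, hnv⟩ := Finset.mem_sdiff.1 hn
  have hn' : n ∈ S.erase v := Finset.mem_erase.2 ⟨fun e => hnv (by simp [e]), hnS⟩
  have hvn : ¬G.Adj v n := (compl_adj G v n |>.1 hun).2
  have hYne : (S.erase v \ X).Nonempty := by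
    rw [Finset.sdiff_nonempty]
    intro hsub
    exact hXS' (Finset.Subset.antisymm hXS hsub)
  by_cases hnX : n ∈ X
  · exact step_aux v hv X (S.erase v \ X) (Finset.union_sdiff_of_subset hXS) Finset.disjoint_sdiff
      (fun x hx y hy => hno x hx y hy) hYne n hnX hvn hc h
  · exact step_aux v hv (S.erase v \ X) X (Finset.sdiff_union_of_subset hXS) Finset.sdiff_disjoint
      (fun x hx y hy hh => hno y hy x hx hh.symm) hXne n (Finset.mem_sdiff.2 ⟨hn', hnX⟩) hvn hc h

theorem seinsche_aux (n : ℕ) : ∀ (G : SimpleGraph V) (S : Finset V), S.card = n + 2 → NoP4 G S →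
    ¬Conn G S ∨ ¬Conn Gᶜ S := by
  induction n with
  | zero =>
    intro G S hS _
    obtain ⟨x, y, hxy, rfl⟩ := Finset.card_eq_two.1 hS
    by_contra hcon
    push Not at hcon
    obtain ⟨hc, hc'⟩ := hcon
    have hsub : ({x} : Finset V) ⊆ {x, y} := by simp
    have hne : ({x} : Finset V) ≠ {x, y} := by
      intro e
      have : y ∈ ({x} : Finset V) := by rw [e]; simp
      exact hxy (Finset.mem_singleton.1 this).symm
    obtain ⟨u, hu, w, hw, huw⟩ := hc {x} hsub (Finset.singleton_nonempty x) hne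
    obtain ⟨u', hu', w', hw', huw'⟩ := hc' {x} hsub (Finset.singleton_nonempty x) hne
    have e1 : u = x := Finset.mem_singleton.1 hu
    have e2 : u' = x := Finset.mem_singleton.1 hu'
    have e3 : w = y := by
      obtain ⟨h1, h2⟩ := Finset.mem_sdiff.1 hw
      simp at h1 h2
      tauto
    have e4 : w' = y := by
      obtain ⟨h1, h2⟩ := Finset.mem_sdiff.1 hw'
      simp at h1 h2
      tauto
    subst e1 e3
    rw [e2, e4] at huw'
    exact (compl_adj G _ _ |>.1 huw').2 huw
  | succ n ih =>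
    intro G S hS h
    have hSne : S.Nonempty := by
      rw [← Finset.card_pos]; omega
    obtain ⟨v, hv⟩ := hSne
    have hcard : (S.erase v).card = n + 2 := by
      rw [Finset.card_erase_of_mem hv, hS]; omega
    have hne : (S.erase v).Nonempty := by
      rw [← Finset.card_pos]; omega
    have h' : NoP4 G (S.erase v) := fun a ha b hb c hc d hd =>
      h a (Finset.mem_of_mem_erase ha) b (Finset.mem_of_mem_erase hb) c (Finset.mem_of_mem_erase hc)
        d (Finset.mem_of_mem_erase hd)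
    rcases ih G (S.erase v) hcard h' with h1 | h1
    · exact step v hv h1 h hne
    · have := step (G := Gᶜ) v hv h1 h.compl hne
      rw [compl_compl] at this
      exact this.symm

/-- TARGET -/
theorem seinsche (hS : 2 ≤ S.card) (h : NoP4 G S) : ¬Conn G S ∨ ¬Conn Gᶜ S :=
  seinsche_aux (S.card - 2) G S (by omega) h

end Seins

end Pool.Agent.J4.H25
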